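import Pool.Agent.H894Z.AB.Loop

/-! Factorising the two-step recurrences into one-step transport equations. -/

set_option autoImplicit false

namespace H894Z.AB

open Finset Filter

variable {K : Type*} [NormedAddCommGroup K] [NormedSpace ℂ K]

/-- the one-sided mover built from `y` -/
noncomputable def uu (a' b' : K →L[ℂ] K) (y : ℤ → ℤ → K) (m n : ℤ) : K :=
  sg m n • (y (m + 1) (n + 1) - b' (y (m + 1) n)) - a' (y m (n + 1) - b' (y m n))

lemma contr (a : K →L[ℂ] K) (ha : ‖a‖ ≤ 1) (x : K) : ‖a x‖ ≤ ‖x‖ := by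
  simpa using pow_contr a ha 1 x

lemma summable_shift (e : ℤ → ℤ → K) (he : Summable (fun p : ℤ × ℤ => ‖e p.1 p.2‖ ^ 2))
    (i j : ℤ) : Summable (fun p : ℤ × ℤ => ‖e (p.1 + i) (p.2 + j)‖ ^ 2) := by
  have hi : Function.Injective (fun p : ℤ × ℤ => (p.1 + i, p.2 + j)) := by
    intro p q h
    simp only [Prod.mk.injEq, add_left_inj] at h
    exact Prod.ext h.1 h.2
  have h := he.comp_injective hi
  exact h

lemma summable_add_sq {ι : Type*} (f g : ι → ℝ) (hf : Summable (fun p => f p ^ 2))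
    (hg : Summable (fun p => g p ^ 2)) : Summable (fun p => (f p + g p) ^ 2) := by
  refine Summable.of_nonneg_of_le (fun _ => sq_nonneg _) (fun p => ?_)
    ((hf.add hg).mul_left 2)
  nlinarith [sq_nonneg (f p - g p)]

lemma core (a a' b b' : K →L[ℂ] K) (ha : ‖a‖ ≤ 1) (ha' : ‖a'‖ ≤ 1) (hb : ‖b‖ ≤ 1)
    (hb' : ‖b'‖ ≤ 1) (haa : a * a' = 1) (hbb : b * b' = 1) (hab : Commute a b)
    (hab' : Commute a b') (ha'b : Commute a' b) (ha'b' : Commute a' b')
    (y e1 e2 : ℤ → ℤ → K)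
    (hy1 : ∀ m n, a (y m n) + a' (y m n)
      = sg m n • y (m + 1) n + sg (m - 1) n • y (m - 1) n + e1 m n)
    (hy2 : ∀ m n, b (y m n) + b' (y m n) = y m (n + 1) + y m (n - 1) + e2 m n)
    (s1 : Summable (fun p : ℤ × ℤ => ‖e1 p.1 p.2‖ ^ 2))
    (s2 : Summable (fun p : ℤ × ℤ => ‖e2 p.1 p.2‖ ^ 2)) :
    Summable (fun r : ℕ => (‖uu a' b' y (r + 1 + 1) (r + 1 + 1)‖ ^ 2
      + ‖uu a' b' y (r + 1 + 1 + 1 + 1) (r + 1 + 1)‖ ^ 2) / (2 * (r + 1) + 1)) := by
  set g1 : ℤ → ℤ → ℝ := fun m n => ‖e1 (m + 1) (n + 1)‖ + ‖e1 (m + 1) (n + 0)‖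
  set g2 : ℤ → ℤ → ℝ := fun m n => ‖e2 (m + 1) (n + 1)‖ + ‖e2 (m + 0) (n + 1)‖
  have c1 : ∀ x, a (a' x) = x := fun x => by
    have := congrArg (fun T : K →L[ℂ] K => T x) haa; simpa using this
  have c2 : ∀ x, b (b' x) = x := fun x => by
    have := congrArg (fun T : K →L[ℂ] K => T x) hbb; simpa using this
  have c3 : ∀ x, a (b' x) = b' (a x) := fun x => by
    have := congrArg (fun T : K →L[ℂ] K => T x) hab'.eq; simpa using this
  have c4 : ∀ x, a' (b' x) = b' (a' x) := fun x => by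
    have := congrArg (fun T : K →L[ℂ] K => T x) ha'b'.eq; simpa using this
  have c5 : ∀ x, b (a' x) = a' (b x) := fun x => by
    have := congrArg (fun T : K →L[ℂ] K => T x) ha'b.eq; simpa using this.symm
  have h1 : ∀ m n, n ≠ 0 →
      ‖sg m n • uu a' b' y (m + 1) n - a (uu a' b' y m n)‖ ≤ g1 m n := by
    intro m n hn
    have p := hy1 (m + 1) (n + 1)
    have q := congrArg b' (hy1 (m + 1) n)
    rw [sg_succ_of_n hn, sg_succ_of_n hn] at p
    simp only [add_sub_cancel_right, map_add, map_smul] at p q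
    have hs := sg_mul_self m n
    have e : sg m n • uu a' b' y (m + 1) n - a (uu a' b' y m n)
        = -(sg m n • (e1 (m + 1) (n + 1) - b' (e1 (m + 1) n))) := by
      unfold uu
      simp only [map_sub, map_smul, c1, c3, c4]
      linear_combination (norm := module) (-(sg m n)) • p + (sg m n) • q
        - hs • y m (n + 1) + hs • b' (y m n)
    rw [e, norm_neg, norm_smul, norm_sg, one_mul]
    have := contr b' hb' (e1 (m + 1) n)
    have h3 := norm_sub_le (e1 (m + 1) (n + 1)) (b' (e1 (m + 1) n))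
    simp only [g1, add_zero]; linarith
  have h2 : ∀ m n, m ≠ 0 →
      ‖uu a' b' y m (n + 1) - b (uu a' b' y m n)‖ ≤ g2 m n := by
    intro m n hm
    have p := hy2 (m + 1) (n + 1)
    have q := congrArg a' (hy2 m (n + 1))
    simp only [add_sub_cancel_right, map_add] at p q
    have e : uu a' b' y m (n + 1) - b (uu a' b' y m n)
        = -(e2 (m + 1) (n + 1) - a' (e2 m (n + 1))) := by
      unfold uu
      simp only [map_sub, map_smul, c2, c5, sg_of_m hm, one_smul]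
      linear_combination (norm := module) (-1 : ℂ) • p + q
    rw [e, norm_neg]
    have := contr a' ha' (e2 m (n + 1))
    have h3 := norm_sub_le (e2 (m + 1) (n + 1)) (a' (e2 m (n + 1)))
    simp only [g2, add_zero]; linarith
  have t1 : Summable (fun p : ℤ × ℤ => g1 p.1 p.2 ^ 2) :=
    summable_add_sq _ _ (summable_shift e1 s1 1 1) (summable_shift e1 s1 1 0)
  have t2 : Summable (fun p : ℤ × ℤ => g2 p.1 p.2 ^ 2) :=
    summable_add_sq _ _ (summable_shift e2 s2 1 1) (summable_shift e2 s2 0 1)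
  have hd := summable_diag a b ha hb hab (uu a' b' y) g1 g2 h1 h2 t1 t2
  have step : ∀ m n, n ≠ 0 → ‖uu a' b' y (m + 1) n‖ ≤ ‖uu a' b' y m n‖ + g1 m n := by
    intro m n hn
    have h3 := h1 m n hn
    have h4 := contr a ha (uu a' b' y m n)
    have h5 : ‖uu a' b' y (m + 1) n‖ = ‖sg m n • uu a' b' y (m + 1) n‖ := by
      rw [norm_smul, norm_sg, one_mul]
    have h6 := norm_add_le (sg m n • uu a' b' y (m + 1) n - a (uu a' b' y m n))
      (a (uu a' b' y m n))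
    rw [sub_add_cancel] at h6
    linarith
  have i1 : Function.Injective (fun r : ℕ => (((r : ℤ) + 1 + 1, (r : ℤ) + 1 + 1) : ℤ × ℤ)) := by
    intro x y h; simpa using h
  have i2 : Function.Injective
      (fun r : ℕ => (((r : ℤ) + 1 + 1 + 1, (r : ℤ) + 1 + 1) : ℤ × ℤ)) := by
    intro x y h; simpa using h
  have u1 := t1.comp_injective i1
  have u2 := t1.comp_injective i2
  refine Summable.of_nonneg_of_le (fun r => by positivity) (fun r => ?_)
    ((hd.mul_left 4).add ((u1.add u2).mul_left 3))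
  have a1 := step (r + 1 + 1) (r + 1 + 1) (by omega)
  have a2 := step (r + 1 + 1 + 1) (r + 1 + 1) (by omega)
  simp only [Function.comp]
  set A := ‖uu a' b' y (r + 1 + 1) (r + 1 + 1)‖
  set B := ‖uu a' b' y (r + 1 + 1 + 1 + 1) (r + 1 + 1)‖
  set G := g1 (r + 1 + 1) (r + 1 + 1)
  set G' := g1 (r + 1 + 1 + 1) (r + 1 + 1)
  have hB : B ≤ A + G + G' := by linarith
  have hB0 : 0 ≤ B := norm_nonneg _
  have hB2 : B ^ 2 ≤ 3 * (A ^ 2 + G ^ 2 + G' ^ 2) := by
    have := pow_le_pow_left₀ hB0 hB 2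
    nlinarith [sq_nonneg (A - G), sq_nonneg (A - G'), sq_nonneg (G - G')]
  have hD : (1 : ℝ) ≤ 2 * ((r : ℝ) + 1) + 1 := by
    have : (0 : ℝ) ≤ r := by positivity
    linarith
  set D := 2 * ((r : ℝ) + 1) + 1
  have hD0 : 0 < D := by linarith
  rw [div_le_iff₀ hD0]
  have e : (4 * (A ^ 2 / D) + 3 * (G ^ 2 + G' ^ 2)) * D = 4 * A ^ 2 + 3 * (G ^ 2 + G' ^ 2) * D := by
    field_simp
  rw [e]
  have : 0 ≤ G ^ 2 + G' ^ 2 := by positivity
  nlinarith

lemma core4 (a a' b b' : K →L[ℂ] K) (ha : ‖a‖ ≤ 1) (ha' : ‖a'‖ ≤ 1) (hb : ‖b‖ ≤ 1)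
    (hb' : ‖b'‖ ≤ 1) (haa : a * a' = 1) (haa' : a' * a = 1) (hbb : b * b' = 1)
    (hbb' : b' * b = 1) (hab : Commute a b)
    (hab' : Commute a b') (ha'b : Commute a' b) (ha'b' : Commute a' b')
    (y e1 e2 : ℤ → ℤ → K)
    (hy1 : ∀ m n, a (y m n) + a' (y m n)
      = sg m n • y (m + 1) n + sg (m - 1) n • y (m - 1) n + e1 m n)
    (hy2 : ∀ m n, b (y m n) + b' (y m n) = y m (n + 1) + y m (n - 1) + e2 m n)
    (s1 : Summable (fun p : ℤ × ℤ => ‖e1 p.1 p.2‖ ^ 2))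
    (s2 : Summable (fun p : ℤ × ℤ => ‖e2 p.1 p.2‖ ^ 2)) (ε : ℝ) (hε : 0 < ε) :
    ∃ᶠ r : ℕ in atTop, ‖((a - a') * (b - b')) (y (r + 1 + 1) (r + 1 + 1))‖ < ε ∧
      ‖((a - a') * (b - b')) (y (r + 1 + 1 + 1 + 1) (r + 1 + 1))‖ < ε := by
  have hy1' : ∀ m n, a' (y m n) + a (y m n)
      = sg m n • y (m + 1) n + sg (m - 1) n • y (m - 1) n + e1 m n := fun m n => by
    rw [add_comm, hy1]
  have hy2' : ∀ m n, b' (y m n) + b (y m n) = y m (n + 1) + y m (n - 1) + e2 m n := fun m n => by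
    rw [add_comm, hy2]
  have k1 := core a a' b b' ha ha' hb hb' haa hbb hab hab' ha'b ha'b' y e1 e2 hy1 hy2 s1 s2
  have k2 := core a' a b b' ha' ha hb hb' haa' hbb ha'b ha'b' hab hab' y e1 e2 hy1' hy2 s1 s2
  have k3 := core a a' b' b ha ha' hb' hb haa hbb' hab' hab ha'b' ha'b y e1 e2 hy1 hy2' s1 s2
  have k4 := core a' a b' b ha' ha hb' hb haa' hbb' ha'b' ha'b hab' hab y e1 e2 hy1' hy2' s1 s2
  have k := ((k1.add k2).add k3).add k4
  simp only [← add_div] at k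
  have f := frequently_small _ k ((ε / 4) ^ 2) (by positivity)
  have z : ∀ m n, ((a - a') * (b - b')) (y m n)
      = uu a' b' y m n - uu a b' y m n - uu a' b y m n + uu a b y m n := by
    intro m n
    unfold uu
    simp only [mul_apply_eq_comp, sub_apply, map_sub, smul_sub]
    abel
  have w : ∀ m n, ‖uu a' b' y m n‖ ^ 2 < (ε / 4) ^ 2 → ‖uu a b' y m n‖ ^ 2 < (ε / 4) ^ 2 →
      ‖uu a' b y m n‖ ^ 2 < (ε / 4) ^ 2 → ‖uu a b y m n‖ ^ 2 < (ε / 4) ^ 2 →
      ‖((a - a') * (b - b')) (y m n)‖ < ε := by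
    intro m n p1 p2 p3 p4
    have h4 : 0 ≤ ε / 4 := by positivity
    have q1 := lt_of_pow_lt_pow_left₀ 2 h4 p1
    have q2 := lt_of_pow_lt_pow_left₀ 2 h4 p2
    have q3 := lt_of_pow_lt_pow_left₀ 2 h4 p3
    have q4 := lt_of_pow_lt_pow_left₀ 2 h4 p4
    rw [z]
    have n1 := norm_add_le (uu a' b' y m n - uu a b' y m n - uu a' b y m n) (uu a b y m n)
    have n2 := norm_sub_le (uu a' b' y m n - uu a b' y m n) (uu a' b y m n)
    have n3 := norm_sub_le (uu a' b' y m n) (uu a b' y m n)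
    linarith
  refine f.mono (fun r hr => ?_)
  have := sq_nonneg ‖uu a' b' y (r + 1 + 1) (r + 1 + 1)‖
  have := sq_nonneg ‖uu a b' y (r + 1 + 1) (r + 1 + 1)‖
  have := sq_nonneg ‖uu a' b y (r + 1 + 1) (r + 1 + 1)‖
  have := sq_nonneg ‖uu a b y (r + 1 + 1) (r + 1 + 1)‖
  have := sq_nonneg ‖uu a' b' y (r + 1 + 1 + 1 + 1) (r + 1 + 1)‖
  have := sq_nonneg ‖uu a b' y (r + 1 + 1 + 1 + 1) (r + 1 + 1)‖
  have := sq_nonneg ‖uu a' b y (r + 1 + 1 + 1 + 1) (r + 1 + 1)‖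
  have := sq_nonneg ‖uu a b y (r + 1 + 1 + 1 + 1) (r + 1 + 1)‖
  constructor <;> apply w <;> linarith

end H894Z.AB
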