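import Mathlib

/-! Holonomy (loop) estimate on the square lattice with a half flux through one plaquette. -/

set_option autoImplicit false

namespace H894Z.AB

open Finset Filter

/-- The sign on the horizontal edge from `(m,n)` to `(m+1,n)`: it is `-1` on the cut `m = 0`, `n ≥ 1`. -/
noncomputable def sg (m n : ℤ) : ℂ := if m = 0 ∧ 1 ≤ n then -1 else 1

lemma sg_mul_self (m n : ℤ) : sg m n * sg m n = 1 := by
  unfold sg; split_ifs <;> simp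

lemma norm_sg (m n : ℤ) : ‖sg m n‖ = 1 := by
  unfold sg; split_ifs <;> simp

lemma conj_sg (m n : ℤ) : (starRingEnd ℂ) (sg m n) = sg m n := by
  unfold sg; split_ifs <;> simp

lemma sg_succ_of_n {m n : ℤ} (hn : n ≠ 0) : sg m (n + 1) = sg m n := by
  unfold sg
  have : (1 ≤ n + 1) ↔ (1 ≤ n) := by omega
  simp only [this]

lemma sg_of_m {m : ℤ} (hm : m ≠ 0) (n : ℤ) : sg m n = 1 := by
  unfold sg; simp [hm]

lemma sg_of_n {n : ℤ} (hn : n ≤ 0) (m : ℤ) : sg m n = 1 := by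
  unfold sg
  have : ¬ (1 ≤ n) := by omega
  simp [this]

variable {K : Type*} [NormedAddCommGroup K] [NormedSpace ℂ K]

lemma path_bound (a : K →L[ℂ] K) (ha : ‖a‖ ≤ 1) (x : ℕ → K) (g : ℕ → ℝ) (L : ℕ)
    (h : ∀ k < L, ‖x (k + 1) - a (x k)‖ ≤ g k) :
    ‖x L - (a ^ L) (x 0)‖ ≤ ∑ k ∈ range L, g k := by
  induction L with
  | zero => simp
  | succ L ih =>
    have ih' := ih (fun k hk => h k (Nat.lt_succ_of_lt hk))
    have h1 := h L (Nat.lt_succ_self L)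
    rw [sum_range_succ]
    have e : x (L + 1) - (a ^ (L + 1)) (x 0)
        = (x (L + 1) - a (x L)) + a (x L - (a ^ L) (x 0)) := by
      rw [pow_succ', ContinuousLinearMap.mul_apply, map_sub]; abel
    rw [e]
    have h2 : ‖a (x L - (a ^ L) (x 0))‖ ≤ ‖x L - (a ^ L) (x 0)‖ := by
      calc _ ≤ ‖a‖ * ‖x L - (a ^ L) (x 0)‖ := a.le_opNorm _
        _ ≤ 1 * ‖x L - (a ^ L) (x 0)‖ := by gcongr
        _ = _ := one_mul _
    calc _ ≤ ‖x (L + 1) - a (x L)‖ + ‖a (x L - (a ^ L) (x 0))‖ := norm_add_le _ _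
      _ ≤ _ := by linarith

lemma pow_contr (a : K →L[ℂ] K) (ha : ‖a‖ ≤ 1) (L : ℕ) (x : K) : ‖(a ^ L) x‖ ≤ ‖x‖ := by
  induction L with
  | zero => simp
  | succ L ih =>
    rw [pow_succ', ContinuousLinearMap.mul_apply]
    calc _ ≤ ‖a‖ * ‖(a ^ L) x‖ := a.le_opNorm _
      _ ≤ 1 * ‖(a ^ L) x‖ := by gcongr
      _ ≤ _ := by simpa using ih

/-- the loop estimate -/
lemma loop_bound (a b : K →L[ℂ] K) (ha : ‖a‖ ≤ 1) (hb : ‖b‖ ≤ 1) (hab : Commute a b)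
    (u : ℤ → ℤ → K) (g1 g2 : ℤ → ℤ → ℝ)
    (h1 : ∀ m n, n ≠ 0 → ‖sg m n • u (m + 1) n - a (u m n)‖ ≤ g1 m n)
    (h2 : ∀ m n, m ≠ 0 → ‖u m (n + 1) - b (u m n)‖ ≤ g2 m n)
    (r : ℕ) (hr : 1 ≤ r) :
    2 * ‖u (r + 1) (r + 1)‖ ≤
      ∑ k ∈ range (2 * r + 1), (g1 (-r + k) (-r) + g1 (-r + k) (r + 1)
        + g2 (-r) (-r + k) + g2 (r + 1) (-r + k)) := by
  set L := 2 * r + 1 with hL
  have hLr : (-(r : ℤ)) + (L : ℕ) = r + 1 := by rw [hL]; push_cast; ring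
  -- bottom
  have hb1 := path_bound a ha (fun k => u (-r + k) (-r)) (fun k => g1 (-r + k) (-r)) L (by
    intro k _
    have := h1 (-r + k) (-r) (by omega)
    rw [sg_of_n (by omega), one_smul] at this
    simpa [add_assoc] using this)
  -- right
  have hr1 := path_bound b hb (fun k => u (r + 1) (-r + k)) (fun k => g2 (r + 1) (-r + k)) L (by
    intro k _
    have := h2 (r + 1) (-r + k) (by omega)
    simpa [add_assoc] using this)
  -- left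
  have hl1 := path_bound b hb (fun k => u (-r) (-r + k)) (fun k => g2 (-r) (-r + k)) L (by
    intro k _
    have := h2 (-r) (-r + k) (by omega)
    simpa [add_assoc] using this)
  -- top
  have ht1 := path_bound a ha
    (fun k => (if k ≤ r then (1 : ℂ) else -1) • u (-r + k) (r + 1))
    (fun k => g1 (-r + k) (r + 1)) L (by
    intro k _
    have := h1 (-r + k) (r + 1) (by omega)
    have e : (if k + 1 ≤ r then (1 : ℂ) else -1) • u (-r + ((k + 1 : ℕ) : ℤ)) (r + 1)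
        - a ((if k ≤ r then (1 : ℂ) else -1) • u (-r + k) (r + 1))
        = (if k ≤ r then (1 : ℂ) else -1) •
          (sg (-r + k) (r + 1) • u (-r + k + 1) (r + 1) - a (u (-r + k) (r + 1))) := by
      rw [map_smul, smul_sub, smul_smul]
      congr 2
      · unfold sg
        by_cases hk : k = r
        · subst hk; simp
        · have h3 : ¬ (-(r : ℤ) + k = 0 ∧ 1 ≤ (r : ℤ) + 1) := by omega
          have h4 : (k + 1 ≤ r) ↔ (k ≤ r) := by omega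
          simp only [h3, h4, if_false, mul_one]
      · push_cast; ring
    rw [e, norm_smul]
    have : ‖(if k ≤ r then (1 : ℂ) else -1)‖ = 1 := by split_ifs <;> simp
    rw [this, one_mul]; assumption)
  simp only [hLr, Nat.cast_zero, add_zero] at hb1 hr1 hl1 ht1
  have hLr' : ¬ (L ≤ r) := by omega
  simp only [hLr', if_false, Nat.zero_le, if_true, one_smul, neg_smul] at ht1
  set P := u (-r) (-r)
  set Q := u (r + 1) (r + 1)
  set R := u (r + 1) (-r)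
  set S := u (-r) (r + 1)
  have hc : (b ^ L) ((a ^ L) P) = (a ^ L) ((b ^ L) P) := by
    have := (hab.pow_pow L L).eq
    rw [← ContinuousLinearMap.mul_apply, ← this, ContinuousLinearMap.mul_apply]
  have e : (2 : ℂ) • Q = (Q - (b ^ L) R) + (b ^ L) (R - (a ^ L) P)
      - ((-Q - (a ^ L) S) + (a ^ L) (S - (b ^ L) P)) := by
    rw [map_sub, map_sub, hc, two_smul]; abel
  have hn : 2 * ‖Q‖ = ‖(2 : ℂ) • Q‖ := by rw [norm_smul]; simp
  rw [hn, e]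
  have p1 := pow_contr b hb L (R - (a ^ L) P)
  have p2 := pow_contr a ha L (S - (b ^ L) P)
  have n1 := norm_sub_le ((Q - (b ^ L) R) + (b ^ L) (R - (a ^ L) P))
    ((-Q - (a ^ L) S) + (a ^ L) (S - (b ^ L) P))
  have n2 := norm_add_le (Q - (b ^ L) R) ((b ^ L) (R - (a ^ L) P))
  have n3 := norm_add_le (-Q - (a ^ L) S) ((a ^ L) (S - (b ^ L) P))
  simp only [sum_add_distrib]
  linarith

lemma sq_sum_le (g : ℕ → ℝ) (L : ℕ) :
    (∑ k ∈ range L, g k) ^ 2 ≤ L * ∑ k ∈ range L, g k ^ 2 := by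
  have := sq_sum_le_card_mul_sum_sq (s := range L) (f := g)
  simpa using this

lemma row_le (G : ℤ → ℝ) (hG : Summable G) (h0 : ∀ m, 0 ≤ G m) (c : ℤ) (L : ℕ) :
    ∑ k ∈ range L, G (c + k) ≤ ∑' m, G m := by
  have : ∑ k ∈ range L, G (c + k) = ∑ m ∈ (range L).image (fun k : ℕ => c + k), G m := by
    rw [sum_image]
    intro x _ y _ h
    simpa using h
  rw [this]
  exact hG.sum_le_tsum _ (fun m _ => h0 m)

/-- square-summable defects force the section to be small along the diagonal -/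
lemma summable_diag (a b : K →L[ℂ] K) (ha : ‖a‖ ≤ 1) (hb : ‖b‖ ≤ 1) (hab : Commute a b)
    (u : ℤ → ℤ → K) (g1 g2 : ℤ → ℤ → ℝ)
    (h1 : ∀ m n, n ≠ 0 → ‖sg m n • u (m + 1) n - a (u m n)‖ ≤ g1 m n)
    (h2 : ∀ m n, m ≠ 0 → ‖u m (n + 1) - b (u m n)‖ ≤ g2 m n)
    (s1 : Summable (fun p : ℤ × ℤ => g1 p.1 p.2 ^ 2))
    (s2 : Summable (fun p : ℤ × ℤ => g2 p.1 p.2 ^ 2)) :
    Summable (fun r : ℕ => ‖u (r + 1 + 1) (r + 1 + 1)‖ ^ 2 / (2 * (r + 1) + 1)) := by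
  have s1' : Summable (fun p : ℤ × ℤ => g1 p.2 p.1 ^ 2) := s1.prod_symm
  set R1 : ℤ → ℝ := fun n => ∑' m, g1 m n ^ 2
  set R2 : ℤ → ℝ := fun m => ∑' n, g2 m n ^ 2
  have hR1 : Summable R1 := s1'.prod
  have hR2 : Summable R2 := s2.prod
  have i1 : Function.Injective (fun r : ℕ => -((r + 1 : ℕ) : ℤ)) := by
    intro x y h; simpa using h
  have i2 : Function.Injective (fun r : ℕ => ((r + 1 : ℕ) : ℤ) + 1) := by
    intro x y h; simpa using h
  have hS : Summable (fun r : ℕ => R1 (-((r + 1 : ℕ) : ℤ)) + R1 (((r + 1 : ℕ) : ℤ) + 1)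
      + R2 (-((r + 1 : ℕ) : ℤ)) + R2 (((r + 1 : ℕ) : ℤ) + 1)) :=
    (((hR1.comp_injective i1).add (hR1.comp_injective i2)).add (hR2.comp_injective i1)).add
      (hR2.comp_injective i2)
  refine Summable.of_nonneg_of_le (fun r => by positivity) (fun r => ?_) hS
  have hl := loop_bound a b ha hb hab u g1 g2 h1 h2 (r + 1) (by omega)
  set ρ : ℕ := r + 1 with hρ
  have hρ' : (r : ℤ) + 1 = (ρ : ℤ) := by rw [hρ]; push_cast; ring
  have hρ'' : (2 : ℝ) * (r + 1) + 1 = ((2 * ρ + 1 : ℕ) : ℝ) := by rw [hρ]; push_cast; ring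
  rw [hρ', hρ'']
  set L := 2 * ρ + 1 with hL
  have hLpos : (0 : ℝ) < L := by rw [hL]; positivity
  rw [div_le_iff₀ hLpos]
  have hq := sq_sum_le (fun k => g1 (-ρ + k) (-ρ) + g1 (-ρ + k) (ρ + 1)
        + g2 (-ρ) (-ρ + k) + g2 (ρ + 1) (-ρ + k)) L
  have hq2 : ∑ k ∈ range L, (g1 (-ρ + k) (-ρ) + g1 (-ρ + k) (ρ + 1)
        + g2 (-ρ) (-ρ + k) + g2 (ρ + 1) (-ρ + k)) ^ 2
      ≤ ∑ k ∈ range L, 4 * (g1 (-ρ + k) (-ρ) ^ 2 + g1 (-ρ + k) (ρ + 1) ^ 2
        + g2 (-ρ) (-ρ + k) ^ 2 + g2 (ρ + 1) (-ρ + k) ^ 2) := by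
    refine sum_le_sum (fun k _ => ?_)
    nlinarith [sq_nonneg (g1 (-ρ + k) (-ρ) - g1 (-ρ + k) (ρ + 1)),
      sq_nonneg (g1 (-ρ + k) (-ρ) - g2 (-ρ) (-ρ + k)),
      sq_nonneg (g1 (-ρ + k) (-ρ) - g2 (ρ + 1) (-ρ + k)),
      sq_nonneg (g1 (-ρ + k) (ρ + 1) - g2 (-ρ) (-ρ + k)),
      sq_nonneg (g1 (-ρ + k) (ρ + 1) - g2 (ρ + 1) (-ρ + k)),
      sq_nonneg (g2 (-ρ) (-ρ + k) - g2 (ρ + 1) (-ρ + k))]
  rw [← mul_sum] at hq2
  simp only [sum_add_distrib] at hq2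
  have b1 := row_le (fun m => g1 m (-ρ) ^ 2) (s1'.prod_factor (-ρ)) (fun _ => sq_nonneg _) (-ρ) L
  have b2 := row_le (fun m => g1 m (ρ + 1) ^ 2) (s1'.prod_factor (ρ + 1))
    (fun _ => sq_nonneg _) (-ρ) L
  have b3 := row_le (fun n => g2 (-ρ) n ^ 2) (s2.prod_factor (-ρ)) (fun _ => sq_nonneg _) (-ρ) L
  have b4 := row_le (fun n => g2 (ρ + 1) n ^ 2) (s2.prod_factor (ρ + 1))
    (fun _ => sq_nonneg _) (-ρ) L
  have hn : 0 ≤ ‖u (ρ + 1) (ρ + 1)‖ := norm_nonneg _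
  have hsq : (2 * ‖u (ρ + 1) (ρ + 1)‖) ^ 2 ≤ (∑ k ∈ range L, (g1 (-ρ + k) (-ρ)
      + g1 (-ρ + k) (ρ + 1) + g2 (-ρ) (-ρ + k) + g2 (ρ + 1) (-ρ + k))) ^ 2 :=
    pow_le_pow_left₀ (by positivity) hl 2
  have hfin : ∑ k ∈ range L, (g1 (-ρ + k) (-ρ) + g1 (-ρ + k) (ρ + 1)
        + g2 (-ρ) (-ρ + k) + g2 (ρ + 1) (-ρ + k)) ^ 2
      ≤ 4 * (R1 (-ρ) + R1 (ρ + 1) + R2 (-ρ) + R2 (ρ + 1)) := by
    simp only [R1, R2]; linarith
  have := mul_le_mul_of_nonneg_left hfin hLpos.le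
  nlinarith

lemma frequently_small (s : ℕ → ℝ) (hs : Summable (fun r : ℕ => s r / (2 * (r + 1) + 1)))
    (ε : ℝ) (hε : 0 < ε) : ∃ᶠ r in atTop, s r < ε := by
  by_contra h
  rw [not_frequently] at h
  have h3 : Summable (fun r : ℕ => (ε / 3) * (1 / ((r + 1 : ℕ) : ℝ))) := by
    obtain ⟨N, hN⟩ := eventually_atTop.1 h
    rw [← summable_nat_add_iff N] at hs ⊢
    refine Summable.of_nonneg_of_le (fun r => by positivity) (fun r => ?_) hs
    have h1 := not_lt.1 (hN (r + N) (by omega))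
    have h2 : (0 : ℝ) ≤ ((r + N : ℕ) : ℝ) := by positivity
    rw [le_div_iff₀ (by positivity)]
    push_cast at h2 ⊢
    have h4 : (0 : ℝ) < (r : ℝ) + N + 1 := by linarith
    have : ε / 3 * (1 / ((r : ℝ) + N + 1)) * (2 * (r + N + 1) + 1) ≤ ε := by
      rw [mul_assoc, one_div, inv_mul_eq_div]
      have : (2 * ((r : ℝ) + N + 1) + 1) / (r + N + 1) ≤ 3 := by
        rw [div_le_iff₀ h4]; linarith
      nlinarith
    linarith
  have h4 : Summable (fun r : ℕ => 1 / ((r + 1 : ℕ) : ℝ)) :=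
    (summable_mul_left_iff (by positivity)).1 h3
  have h5 : Summable (fun r : ℕ => 1 / (r : ℝ)) := (summable_nat_add_iff 1).1 h4
  exact Real.not_summable_one_div_natCast h5

end H894Z.AB
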