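import Pool.Agent.H894Z.AB.Core

/-! No normal operator intertwines, up to square-summable errors, the half-flux hopping operator. -/

set_option autoImplicit false

namespace H894Z.AB

open Finset Filter Complex

noncomputable def cl (x : ℝ) : ℝ := max (-1) (min 1 x)
noncomputable def sr (x : ℝ) : ℝ := Real.sqrt (1 - x ^ 2)

lemma continuous_cl : Continuous cl := by unfold cl; fun_prop
lemma continuous_sr : Continuous sr := by unfold sr; fun_prop

lemma cl_sr (x : ℝ) : cl x ^ 2 + sr x ^ 2 = 1 ∧ cl x * sr x = x * sr x ∧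
    sr x ^ 2 = max 0 (1 - x ^ 2) := by
  unfold cl sr
  rcases le_total 1 x with h | h
  · have h0 : 1 - x ^ 2 ≤ 0 := by nlinarith
    rw [Real.sqrt_eq_zero'.2 h0, min_eq_left h, max_eq_right (by norm_num), max_eq_left h0]
    simp
  · rcases le_total x (-1) with h' | h'
    · have h0 : 1 - x ^ 2 ≤ 0 := by nlinarith
      rw [Real.sqrt_eq_zero'.2 h0, min_eq_right h, max_eq_left h', max_eq_left h0]
      simp
    · have h0 : 0 ≤ 1 - x ^ 2 := by nlinarith
      rw [min_eq_right h, max_eq_right h', Real.sq_sqrt h0, max_eq_right h0]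
      simp

noncomputable def wp (x : ℝ) : ℂ := (cl x : ℂ) + I * (sr x : ℂ)
noncomputable def wm (x : ℝ) : ℂ := (cl x : ℂ) - I * (sr x : ℂ)

lemma continuous_wp : Continuous wp := by
  have := continuous_cl; have := continuous_sr; unfold wp; fun_prop
lemma continuous_wm : Continuous wm := by
  have := continuous_cl; have := continuous_sr; unfold wm; fun_prop

lemma wp_mul_wm (x : ℝ) : wp x * wm x = 1 := by
  have h : ((cl x : ℂ)) ^ 2 + (sr x : ℂ) ^ 2 = 1 := by exact_mod_cast (cl_sr x).1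
  unfold wp wm
  linear_combination h - (sr x : ℂ) ^ 2 * I_sq

lemma norm_wp (x : ℝ) : ‖wp x‖ ≤ 1 := by
  have h := (cl_sr x).1
  have : ‖wp x‖ ^ 2 = 1 := by
    rw [Complex.sq_norm, Complex.normSq_apply]; unfold wp; simp; nlinarith
  nlinarith [norm_nonneg (wp x)]

lemma norm_wm (x : ℝ) : ‖wm x‖ ≤ 1 := by
  have h := (cl_sr x).1
  have : ‖wm x‖ ^ 2 = 1 := by
    rw [Complex.sq_norm, Complex.normSq_apply]; unfold wm; simp; nlinarith
  nlinarith [norm_nonneg (wm x)]

lemma wp_add_wm (x : ℝ) : (wp x + wm x) * (sr x : ℂ) = 2 * x * (sr x : ℂ) := by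
  have h : ((cl x : ℂ)) * (sr x : ℂ) = x * (sr x : ℂ) := by exact_mod_cast (cl_sr x).2.1
  unfold wp wm
  linear_combination 2 * h

lemma wp_sub_wm (x : ℝ) : wp x - wm x = 2 * I * (sr x : ℂ) := by
  unfold wp wm; ring

lemma gap_nonneg (x y : ℝ) : 0 ≤ sr x ^ 2 * sr y ^ 2 - 1 + (x ^ 2 + y ^ 2) := by
  rw [(cl_sr x).2.2, (cl_sr y).2.2]
  rcases le_total 0 (1 - x ^ 2) with h | h <;> rcases le_total 0 (1 - y ^ 2) with h' | h'
  · rw [max_eq_right h, max_eq_right h']; nlinarith [mul_nonneg (sq_nonneg x) (sq_nonneg y)]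
  · rw [max_eq_left h']; nlinarith [sq_nonneg x]
  · rw [max_eq_left h]; nlinarith [sq_nonneg y]
  · rw [max_eq_left h]; nlinarith [sq_nonneg y]

variable {K : Type*} [NormedAddCommGroup K] [InnerProductSpace ℂ K] [CompleteSpace K]

lemma exists_ops (N : K →L[ℂ] K) (hN : IsStarNormal N) :
    ∃ a a' b b' c : K →L[ℂ] K, ‖a‖ ≤ 1 ∧ ‖a'‖ ≤ 1 ∧ ‖b‖ ≤ 1 ∧ ‖b'‖ ≤ 1 ∧
      a * a' = 1 ∧ a' * a = 1 ∧ b * b' = 1 ∧ b' * b = 1 ∧ Commute a b ∧ Commute a b' ∧
      Commute a' b ∧ Commute a' b' ∧ (a + a') * c = c * (N + star N) ∧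
      (b + b') * c = c * ((-I) • (N - star N)) ∧
      ∃ H : K →L[ℂ] K, (a - a') * (b - b') * c = (-4 : ℂ) • (star H * H + 1 - star N * N) := by
  have c1 : Continuous (fun z : ℂ => wp z.re) := continuous_wp.comp continuous_re
  have c2 : Continuous (fun z : ℂ => wm z.re) := continuous_wm.comp continuous_re
  have c3 : Continuous (fun z : ℂ => wp z.im) := continuous_wp.comp continuous_im
  have c4 : Continuous (fun z : ℂ => wm z.im) := continuous_wm.comp continuous_im
  have c5 : Continuous (fun z : ℂ => (sr z.re : ℂ) * (sr z.im : ℂ)) := by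
    have := continuous_sr; fun_prop
  have c6 : Continuous (fun z : ℂ =>
      ((Real.sqrt (sr z.re ^ 2 * sr z.im ^ 2 - 1 + (z.re ^ 2 + z.im ^ 2)) : ℝ) : ℂ)) := by
    have := continuous_sr; fun_prop
  have c7 : Continuous (fun z : ℂ => star z * z) := by fun_prop
  have hid : cfc (fun z : ℂ => z) N = N := cfc_id' ℂ N
  have hst : cfc (fun z : ℂ => star z) N = star N := cfc_star_id N
  refine ⟨cfc (fun z : ℂ => wp z.re) N, cfc (fun z : ℂ => wm z.re) N,
    cfc (fun z : ℂ => wp z.im) N, cfc (fun z : ℂ => wm z.im) N,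
    cfc (fun z : ℂ => (sr z.re : ℂ) * (sr z.im : ℂ)) N,
    norm_cfc_le zero_le_one (fun z _ => norm_wp _), norm_cfc_le zero_le_one (fun z _ => norm_wm _),
    norm_cfc_le zero_le_one (fun z _ => norm_wp _), norm_cfc_le zero_le_one (fun z _ => norm_wm _),
    ?_, ?_, ?_, ?_, cfc_commute_cfc _ _ _, cfc_commute_cfc _ _ _, cfc_commute_cfc _ _ _,
    cfc_commute_cfc _ _ _, ?_, ?_, cfc (fun z : ℂ =>
      ((Real.sqrt (sr z.re ^ 2 * sr z.im ^ 2 - 1 + (z.re ^ 2 + z.im ^ 2)) : ℝ) : ℂ)) N, ?_⟩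
  · rw [← cfc_mul _ _ N c1.continuousOn c2.continuousOn]
    simp only [wp_mul_wm]; exact cfc_const_one ℂ N
  · rw [← cfc_mul _ _ N c2.continuousOn c1.continuousOn]
    simp only [mul_comm (wm _), wp_mul_wm]; exact cfc_const_one ℂ N
  · rw [← cfc_mul _ _ N c3.continuousOn c4.continuousOn]
    simp only [wp_mul_wm]; exact cfc_const_one ℂ N
  · rw [← cfc_mul _ _ N c4.continuousOn c3.continuousOn]
    simp only [mul_comm (wm _), wp_mul_wm]; exact cfc_const_one ℂ N
  · have e : N + star N = cfc (fun z : ℂ => z + star z) N := by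
      rw [cfc_add N _ _ (by fun_prop) (by fun_prop), hid, hst]
    rw [e, ← cfc_add N _ _ c1.continuousOn c2.continuousOn,
      ← cfc_mul _ _ N (c1.fun_add c2).continuousOn c5.continuousOn,
      ← cfc_mul _ _ N c5.continuousOn (by fun_prop)]
    congr 1; funext z
    have h := wp_add_wm z.re
    have h2 : z + star z = 2 * (z.re : ℂ) := by
      simpa using Complex.add_conj z
    rw [h2]
    linear_combination (sr z.im : ℂ) * h
  · have e : (-I) • (N - star N) = cfc (fun z : ℂ => (-I) • (z - star z)) N := by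
      rw [cfc_smul _ _ N (by fun_prop), cfc_sub _ _ N (by fun_prop) (by fun_prop), hid, hst]
    rw [e, ← cfc_add N _ _ c3.continuousOn c4.continuousOn,
      ← cfc_mul _ _ N (c3.fun_add c4).continuousOn c5.continuousOn,
      ← cfc_mul _ _ N c5.continuousOn (by fun_prop)]
    congr 1; funext z
    have h := wp_add_wm z.im
    have h2 : z - star z = 2 * (z.im : ℂ) * I := by
      simpa using Complex.sub_conj z
    rw [h2, smul_eq_mul]
    linear_combination (sr z.re : ℂ) * h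
      + 2 * (z.im : ℂ) * (sr z.re : ℂ) * (sr z.im : ℂ) * I_sq
  · have e1 : star N * N = cfc (fun z : ℂ => star z * z) N := by
      rw [cfc_mul _ _ N (by fun_prop) (by fun_prop), hid, hst]
    have e2 : (1 : K →L[ℂ] K) = cfc (fun _ : ℂ => (1 : ℂ)) N := (cfc_const_one ℂ N).symm
    rw [e1, e2, ← cfc_star, ← cfc_mul _ _ N c6.star.continuousOn c6.continuousOn,
      ← cfc_add N _ _ (c6.star.fun_mul c6).continuousOn continuous_const.continuousOn,
      ← cfc_sub _ _ N ((c6.star.fun_mul c6).fun_add continuous_const).continuousOn c7.continuousOn,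
      ← cfc_smul _ _ N (((c6.star.fun_mul c6).fun_add continuous_const).fun_sub c7).continuousOn,
      ← cfc_sub _ _ N c1.continuousOn c2.continuousOn,
      ← cfc_sub _ _ N c3.continuousOn c4.continuousOn,
      ← cfc_mul _ _ N (c1.fun_sub c2).continuousOn (c3.fun_sub c4).continuousOn,
      ← cfc_mul _ _ N ((c1.fun_sub c2).fun_mul (c3.fun_sub c4)).continuousOn c5.continuousOn]
    congr 1; funext z
    have h := Real.mul_self_sqrt (gap_nonneg z.re z.im)
    have h' : ((Real.sqrt (sr z.re ^ 2 * sr z.im ^ 2 - 1 + (z.re ^ 2 + z.im ^ 2)) : ℝ) : ℂ) *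
        ((Real.sqrt (sr z.re ^ 2 * sr z.im ^ 2 - 1 + (z.re ^ 2 + z.im ^ 2)) : ℝ) : ℂ)
        = (sr z.re : ℂ) ^ 2 * (sr z.im : ℂ) ^ 2 - 1 + ((z.re : ℂ) ^ 2 + (z.im : ℂ) ^ 2) := by
      exact_mod_cast h
    have h2 : star z * z = (z.re : ℂ) ^ 2 + (z.im : ℂ) ^ 2 := by
      have := Complex.normSq_eq_conj_mul_self (z := z)
      rw [Complex.normSq_apply] at this
      rw [Complex.star_def, ← this]; push_cast; ring
    rw [wp_sub_wm, wp_sub_wm, h2, smul_eq_mul, Complex.star_def, Complex.conj_ofReal, h']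
    linear_combination 4 * (sr z.re : ℂ) ^ 2 * (sr z.im : ℂ) ^ 2 * I_sq

omit [CompleteSpace K] in
lemma norm_comb {ι : Type*} [Fintype ι] (w : ι → K) (hw : Orthonormal ℂ w) (l : ι → ℂ) :
    ‖∑ i, l i • w i‖ ^ 2 = ∑ i, ‖l i‖ ^ 2 := by
  have h := hw.inner_sum l l univ
  rw [inner_self_eq_norm_sq_to_K] at h
  have h2 : ∀ i, (starRingEnd ℂ) (l i) * l i = ((‖l i‖ ^ 2 : ℝ) : ℂ) := fun i => by
    rw [Complex.conj_mul']; push_cast; rfl
  simp only [h2] at h
  apply Complex.ofReal_injective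
  push_cast at h ⊢
  exact h

theorem no_normal (N : K →L[ℂ] K) (hN : IsStarNormal N) (v : ℤ × ℤ → K) (hv : Orthonormal ℂ v)
    (s1 : Summable (fun p : ℤ × ℤ => ‖N (v p) - (1 / 2 : ℂ) •
      ((sg p.1 p.2 • v (p.1 + 1, p.2) + sg (p.1 - 1) p.2 • v (p.1 - 1, p.2))
        + I • (v (p.1, p.2 + 1) + v (p.1, p.2 - 1)))‖ ^ 2))
    (s2 : Summable (fun p : ℤ × ℤ => ‖(star N) (v p) - (1 / 2 : ℂ) •
      ((sg p.1 p.2 • v (p.1 + 1, p.2) + sg (p.1 - 1) p.2 • v (p.1 - 1, p.2))
        - I • (v (p.1, p.2 + 1) + v (p.1, p.2 - 1)))‖ ^ 2)) : False := by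
  obtain ⟨a, a', b, b', c, ha, ha', hb, hb', haa, haa', hbb, hbb', hab, hab', ha'b, ha'b',
    hX, hY, H, hG⟩ := exists_ops N hN
  set d : ℤ × ℤ → K := fun p => N (v p) - (1 / 2 : ℂ) •
      ((sg p.1 p.2 • v (p.1 + 1, p.2) + sg (p.1 - 1) p.2 • v (p.1 - 1, p.2))
        + I • (v (p.1, p.2 + 1) + v (p.1, p.2 - 1))) with hd
  set d' : ℤ × ℤ → K := fun p => (star N) (v p) - (1 / 2 : ℂ) •
      ((sg p.1 p.2 • v (p.1 + 1, p.2) + sg (p.1 - 1) p.2 • v (p.1 - 1, p.2))
        - I • (v (p.1, p.2 + 1) + v (p.1, p.2 - 1))) with hd'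
  have s1' : Summable (fun p => ‖d p‖ ^ 2) := s1
  have s2' : Summable (fun p => ‖d' p‖ ^ 2) := s2
  have s3 := (summable_add_sq _ _ s1' s2').mul_left (‖c‖ ^ 2)
  have f := core4 a a' b b' ha ha' hb hb' haa haa' hbb hbb' hab hab' ha'b ha'b'
    (fun m n => c (v (m, n))) (fun m n => c (d (m, n) + d' (m, n)))
    (fun m n => c ((-I) • (d (m, n) - d' (m, n))))
    (by
      intro m n
      have := congrArg (fun T : K →L[ℂ] K => T (v (m, n))) hX
      simp only [mul_apply_eq_comp, add_apply] at this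
      rw [this, ← map_smul, ← map_smul, ← map_add, ← map_add]
      congr 1
      simp only [hd, hd']
      module)
    (by
      intro m n
      have := congrArg (fun T : K →L[ℂ] K => T (v (m, n))) hY
      simp only [mul_apply_eq_comp, add_apply, smul_apply, sub_apply] at this
      rw [this, ← map_add, ← map_add]
      congr 1
      simp only [hd, hd']
      linear_combination (norm := module) -(I_sq • v (m, n + 1)) - I_sq • v (m, n - 1))
    (by
      refine Summable.of_nonneg_of_le (fun _ => sq_nonneg _) (fun p => ?_) s3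
      rw [← mul_pow]
      refine pow_le_pow_left₀ (norm_nonneg _) ((c.le_opNorm _).trans ?_) 2
      gcongr
      exact norm_add_le _ _)
    (by
      refine Summable.of_nonneg_of_le (fun _ => sq_nonneg _) (fun p => ?_) s3
      rw [← mul_pow]
      refine pow_le_pow_left₀ (norm_nonneg _) ((c.le_opNorm _).trans ?_) 2
      gcongr
      rw [norm_smul, norm_neg, Complex.norm_I, one_mul]
      exact norm_sub_le _ _)
    (1 / 100) (by norm_num)
  have i1 : Function.Injective (fun r : ℕ => (((r : ℤ) + 1 + 1, (r : ℤ) + 1 + 1) : ℤ × ℤ)) := by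
    intro x y h; simpa using h
  have i2 : Function.Injective
      (fun r : ℕ => (((r : ℤ) + 1 + 1 + 1 + 1, (r : ℤ) + 1 + 1) : ℤ × ℤ)) := by
    intro x y h; simpa using h
  have t1 := (s1'.comp_injective i1).tendsto_atTop_zero.eventually
    (gt_mem_nhds (show (0 : ℝ) < (1 / 100) ^ 2 by norm_num))
  have t2 := (s1'.comp_injective i2).tendsto_atTop_zero.eventually
    (gt_mem_nhds (show (0 : ℝ) < (1 / 100) ^ 2 by norm_num))
  obtain ⟨r, ⟨z1, z2⟩, q1, q2⟩ := (f.and_eventually (t1.and t2)).exists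
  simp only [Function.comp] at q1 q2
  have q1' := lt_of_pow_lt_pow_left₀ 2 (by norm_num) q1
  have q2' := lt_of_pow_lt_pow_left₀ 2 (by norm_num) q2
  set m : ℤ := (r : ℤ) + 1 + 1 with hm
  have hm0 : 2 ≤ m := by omega
  set g : K := v (m, m) - v (m + 1 + 1, m) with hg
  have ng : ‖g‖ ^ 2 = 2 := by
    have hi : Function.Injective (![(m, m), (m + 1 + 1, m)] : Fin 2 → ℤ × ℤ) := by
      intro i j h
      fin_cases i <;> fin_cases j <;> simp at h ⊢ <;> omega
    have := norm_comb _ (hv.comp _ hi) ![1, -1]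
    simp [Fin.sum_univ_two] at this
    rw [hg, sub_eq_add_neg, this]; norm_num
  set t : K := v (m - 1, m) - v (m + 1 + 1 + 1, m) + I • v (m, m + 1) + I • v (m, m - 1)
    - I • v (m + 1 + 1, m + 1) - I • v (m + 1 + 1, m - 1) with ht
  have nt : ‖t‖ ^ 2 = 6 := by
    have hi : Function.Injective (![(m - 1, m), (m + 1 + 1 + 1, m), (m, m + 1), (m, m - 1),
        (m + 1 + 1, m + 1), (m + 1 + 1, m - 1)] : Fin 6 → ℤ × ℤ) := by
      intro i j h
      fin_cases i <;> fin_cases j <;> simp at h ⊢ <;> omega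
    have := norm_comb _ (hv.comp _ hi) ![1, -1, I, I, -I, -I]
    simp [Fin.sum_univ_six] at this
    rw [ht]
    simp only [sub_eq_add_neg] at this ⊢
    rw [this]; norm_num
  have hNg : N g = (1 / 2 : ℂ) • t + (d (m, m) - d (m + 1 + 1, m)) := by
    simp only [hg, ht, hd, map_sub]
    rw [sg_of_m (by omega), sg_of_m (by omega), sg_of_m (by omega), sg_of_m (by omega)]
    simp only [add_sub_cancel_right]
    module
  have nt' : ‖t‖ ≤ 246 / 100 := by nlinarith [norm_nonneg t]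
  have nN : ‖N g‖ ≤ 125 / 100 := by
    rw [hNg]
    have n1 := norm_add_le ((1 / 2 : ℂ) • t) (d (m, m) - d (m + 1 + 1, m))
    have n2 := norm_sub_le (d (m, m)) (d (m + 1 + 1, m))
    have n3 : ‖(1 / 2 : ℂ) • t‖ = 1 / 2 * ‖t‖ := by rw [norm_smul]; simp
    linarith
  have hGg := congrArg (fun T : K →L[ℂ] K => T g) hG
  have nG : ‖((a - a') * (b - b') * c) g‖ ≤ 2 / 100 := by
    rw [mul_apply_eq_comp, hg, map_sub, map_sub]
    have := norm_sub_le (((a - a') * (b - b')) (c (v (m, m))))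
      (((a - a') * (b - b')) (c (v (m + 1 + 1, m))))
    linarith
  rw [hGg, smul_apply, norm_smul] at nG
  have nG' : ‖(star H * H + 1 - star N * N) g‖ ≤ 1 / 100 := by
    have : ‖(-4 : ℂ)‖ = 4 := by simp
    rw [this] at nG; linarith
  have hin : inner ℂ g ((star H * H + 1 - star N * N) g)
      = ((‖H g‖ ^ 2 + ‖g‖ ^ 2 - ‖N g‖ ^ 2 : ℝ) : ℂ) := by
    simp only [sub_apply, add_apply, mul_apply_eq_comp, ContinuousLinearMap.star_eq_adjoint,
      inner_sub_right, inner_add_right, ContinuousLinearMap.adjoint_inner_right, one_apply_eq_self,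
      inner_self_eq_norm_sq_to_K]
    push_cast; rfl
  have hcs := norm_inner_le_norm (𝕜 := ℂ) g ((star H * H + 1 - star N * N) g)
  rw [hin, Complex.norm_real, Real.norm_eq_abs] at hcs
  have h1 := (le_abs_self _).trans hcs
  have ng' : ‖g‖ ≤ 3 / 2 := by nlinarith [norm_nonneg g]
  have h2 : ‖g‖ * ‖(star H * H + 1 - star N * N) g‖ ≤ 3 / 2 * (1 / 100) :=
    mul_le_mul ng' nG' (norm_nonneg _) (by norm_num)
  have h3 : ‖N g‖ ^ 2 ≤ (125 / 100) ^ 2 := pow_le_pow_left₀ (norm_nonneg _) nN 2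
  nlinarith [sq_nonneg ‖H g‖]

end H894Z.AB
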