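import Pool.Agent.H894Z.AB.Normal

/-! Hilbert-Schmidt bookkeeping, block operators and the half-flux hopping operator. -/

set_option autoImplicit false

namespace H894Z.AB

open Finset Filter Complex

variable {H : Type*} [NormedAddCommGroup H] [InnerProductSpace ℂ H] [CompleteSpace H]

omit [CompleteSpace H] in
lemma hasSum_norm_sq {ι : Type*} (b : HilbertBasis ι ℂ H) (x : H) :
    HasSum (fun i => ‖inner ℂ (b i) x‖ ^ 2) (‖x‖ ^ 2) := by
  have h := b.hasSum_inner_mul_inner x x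
  rw [inner_self_eq_norm_sq_to_K] at h
  have h2 : ∀ i, inner ℂ x (b i) * inner ℂ (b i) x = ((‖inner ℂ (b i) x‖ ^ 2 : ℝ) : ℂ) := by
    intro i
    rw [← inner_conj_symm x (b i), Complex.conj_mul']; push_cast; rfl
  simp only [h2] at h
  apply Complex.hasSum_ofReal.1
  push_cast at h ⊢
  exact h

lemma summable_star {ι κ : Type*} (b : HilbertBasis ι ℂ H) (A : H →L[ℂ] H)
    (hA : Summable (fun i => ‖A (b i)‖ ^ 2)) (e : κ → H) (he : Orthonormal ℂ e) :
    Summable (fun p => ‖(star A) (e p)‖ ^ 2) := by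
  refine summable_of_sum_le (c := ∑' i, ‖A (b i)‖ ^ 2) (fun _ => sq_nonneg _) (fun s => ?_)
  have h1 : HasSum (fun i => ∑ p ∈ s, ‖inner ℂ (b i) ((star A) (e p))‖ ^ 2)
      (∑ p ∈ s, ‖(star A) (e p)‖ ^ 2) :=
    hasSum_sum (fun p _ => hasSum_norm_sq b _)
  refine hasSum_le (fun i => ?_) h1 hA.hasSum
  have h2 := he.sum_inner_products_le (s := s) (A (b i))
  refine le_trans (le_of_eq (sum_congr rfl (fun p _ => ?_))) h2
  rw [ContinuousLinearMap.star_eq_adjoint, ContinuousLinearMap.adjoint_inner_right,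
    norm_inner_symm]

lemma summable_both {ι κ : Type*} (b : HilbertBasis ι ℂ H) (A : H →L[ℂ] H)
    (hA : Summable (fun i => ‖A (b i)‖ ^ 2)) (e : HilbertBasis κ ℂ H) :
    Summable (fun p => ‖A (e p)‖ ^ 2) ∧ Summable (fun p => ‖(star A) (e p)‖ ^ 2) := by
  have h := summable_star b A hA e e.orthonormal
  refine ⟨?_, h⟩
  have := summable_star e (star A) h e e.orthonormal
  rwa [star_star] at this

/-- block operator on the Hilbert direct sum -/
noncomputable def blk (A B C D : H →L[ℂ] H) : WithLp 2 (H × H) →L[ℂ] WithLp 2 (H × H) :=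
  ((WithLp.prodContinuousLinearEquiv 2 ℂ H H).symm : (H × H) →L[ℂ] WithLp 2 (H × H)).comp
    ((A.comp (WithLp.fstL 2 ℂ H H) + B.comp (WithLp.sndL 2 ℂ H H)).prod
      (C.comp (WithLp.fstL 2 ℂ H H) + D.comp (WithLp.sndL 2 ℂ H H)))

omit [CompleteSpace H] in
lemma blk_apply (A B C D : H →L[ℂ] H) (x y : H) :
    blk A B C D (WithLp.toLp 2 (x, y)) = WithLp.toLp 2 (A x + B y, C x + D y) := rfl

lemma star_blk (A B C D : H →L[ℂ] H) :
    star (blk A B C D) = blk (star A) (star C) (star B) (star D) := by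
  symm
  rw [ContinuousLinearMap.star_eq_adjoint (blk A B C D), ContinuousLinearMap.eq_adjoint_iff]
  rintro ⟨x, y⟩ ⟨z, w⟩
  rw [blk_apply, blk_apply]
  simp only [WithLp.prod_inner_apply, inner_add_left, inner_add_right,
    ContinuousLinearMap.star_eq_adjoint, ContinuousLinearMap.adjoint_inner_left]
  ring

omit [CompleteSpace H] in
lemma blk_mul (A B C D A' B' C' D' : H →L[ℂ] H) :
    blk A B C D * blk A' B' C' D'
      = blk (A * A' + B * C') (A * B' + B * D') (C * A' + D * C') (C * B' + D * D') := by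
  refine ContinuousLinearMap.ext ?_
  rintro ⟨x, y⟩
  rw [mul_apply_eq_comp, blk_apply, blk_apply, blk_apply]
  simp only [map_add, add_apply, mul_apply_eq_comp]
  congr 2 <;> abel

lemma exists_shift {ι : Type*} (e : HilbertBasis ι ℂ H) (π : ι ≃ ι) (s : ι → ℂ)
    (hs : ∀ i, (starRingEnd ℂ) (s i) * s i = 1) :
    ∃ U : H →L[ℂ] H, (∀ i, U (e i) = s i • e (π i)) ∧
      (∀ i, (star U) (e (π i)) = (starRingEnd ℂ) (s i) • e i) := by
  classical
  have ho : Orthonormal ℂ (fun i => s i • e (π i)) := by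
    rw [orthonormal_iff_ite]
    intro i j
    rw [inner_smul_left, inner_smul_right, orthonormal_iff_ite.1 e.orthonormal]
    by_cases h : i = j
    · subst h; simp [hs]
    · have : π i ≠ π j := fun h' => h (π.injective h')
      simp [h, this]
  have hsp : (Submodule.span ℂ (Set.range (fun i => s i • e (π i))))ᗮ = ⊥ := by
    rw [Submodule.eq_bot_iff]
    intro x hx
    apply e.repr.injective
    rw [map_zero]
    ext j
    obtain ⟨i, rfl⟩ := π.surjective j
    have h := (Submodule.mem_orthogonal _ _).1 hx (s i • e (π i))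
      (Submodule.subset_span ⟨i, rfl⟩)
    rw [inner_smul_left] at h
    have h0 : (starRingEnd ℂ) (s i) ≠ 0 := left_ne_zero_of_mul_eq_one (hs i)
    rw [e.repr_apply_apply]
    simpa [h0] using (mul_eq_zero.1 h).resolve_left h0
  set e' := HilbertBasis.mkOfOrthogonalEqBot ho hsp
  have he' : ∀ i, e' i = s i • e (π i) := fun i =>
    congrFun (HilbertBasis.coe_mkOfOrthogonalEqBot ho hsp) i
  set U : H ≃ₗᵢ[ℂ] H := e.repr.trans e'.repr.symm
  have hU : ∀ i, U (e i) = s i • e (π i) := fun i => by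
    rw [← he']
    simp only [U, LinearIsometryEquiv.trans_apply, e.repr_self, e'.repr_symm_single]
  refine ⟨(U : H →L[ℂ] H), hU, fun i => ?_⟩
  rw [ContinuousLinearMap.star_eq_adjoint, U.adjoint_eq_symm]
  apply U.injective
  have : U (((U.symm : H ≃ₗᵢ[ℂ] H) : H →L[ℂ] H) (e (π i))) = e (π i) := U.apply_symm_apply _
  rw [this, map_smul, hU, smul_smul, hs, one_smul]

omit [CompleteSpace H] in
lemma factor_of_finite {ι : Type*} (e : HilbertBasis ι ℂ H) (C : H →L[ℂ] H) (F : Finset ι)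
    (hC : ∀ p ∉ F, C (e p) = 0) :
    ∃ P : H →L[ℂ] H, Summable (fun p => ‖C (e p)‖ ^ 2) ∧ Summable (fun p => ‖P (e p)‖ ^ 2) ∧
      C = C * P := by
  classical
  set P : H →L[ℂ] H := ∑ q ∈ F, (innerSL ℂ (e q)).smulRight (e q)
  have hP : ∀ p, P (e p) = if p ∈ F then e p else 0 := by
    intro p
    simp only [P, _root_.sum_apply, ContinuousLinearMap.smulRight_apply,
      innerSL_apply_apply, orthonormal_iff_ite.1 e.orthonormal, ite_smul, one_smul, zero_smul]
    rw [Finset.sum_ite_eq' F p (fun q => e q)]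
  refine ⟨P, ?_, ?_, ?_⟩
  · exact summable_of_ne_finset_zero (s := F) (fun p hp => by simp [hC p hp])
  · exact summable_of_ne_finset_zero (s := F) (fun p hp => by simp [hP, hp])
  · refine ContinuousLinearMap.ext_on
      (Submodule.dense_iff_topologicalClosure_eq_top.2 e.dense_span) ?_
    rintro _ ⟨p, rfl⟩
    rw [mul_apply_eq_comp, hP]
    by_cases hp : p ∈ F
    · simp [hp]
    · simp [hp, hC p hp]

omit [CompleteSpace H] in
lemma separable_of_basis {ι : Type*} [Countable ι] (e : HilbertBasis ι ℂ H) :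
    TopologicalSpace.SeparableSpace H := by
  rw [← TopologicalSpace.isSeparable_univ_iff]
  have h := ((Set.countable_range e).isSeparable.span (R := ℂ)).closure
  have h2 := (Submodule.dense_iff_topologicalClosure_eq_top.2 e.dense_span).closure_eq
  rwa [h2] at h

/-- the half-flux hopping operator: finite rank self-commutator -/
lemma exists_T (e : HilbertBasis (ℤ × ℤ) ℂ H) :
    ∃ T : H →L[ℂ] H,
      (∀ p : ℤ × ℤ, T (e p) = (1 / 2 : ℂ) •
        ((sg p.1 p.2 • e (p.1 + 1, p.2) + sg (p.1 - 1) p.2 • e (p.1 - 1, p.2))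
          + I • (e (p.1, p.2 + 1) + e (p.1, p.2 - 1)))) ∧
      (∀ p : ℤ × ℤ, (star T) (e p) = (1 / 2 : ℂ) •
        ((sg p.1 p.2 • e (p.1 + 1, p.2) + sg (p.1 - 1) p.2 • e (p.1 - 1, p.2))
          - I • (e (p.1, p.2 + 1) + e (p.1, p.2 - 1)))) ∧
      ∃ F : Finset (ℤ × ℤ), ∀ p ∉ F, (star T * T - T * star T) (e p) = 0 := by
  obtain ⟨U, hU, hU'⟩ := exists_shift e ((Equiv.addRight (1 : ℤ)).prodCongr (Equiv.refl ℤ))
    (fun p => sg p.1 p.2) (fun p => by rw [conj_sg, sg_mul_self])
  obtain ⟨W, hW, hW'⟩ := exists_shift e ((Equiv.refl ℤ).prodCongr (Equiv.addRight (1 : ℤ)))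
    (fun _ => 1) (fun p => by simp)
  have u1 : ∀ m n : ℤ, U (e (m, n)) = sg m n • e (m + 1, n) := fun m n => by
    simpa using hU (m, n)
  have u2 : ∀ m n : ℤ, (star U) (e (m, n)) = sg (m - 1) n • e (m - 1, n) := fun m n => by
    simpa [conj_sg] using hU' (m - 1, n)
  have w1 : ∀ m n : ℤ, W (e (m, n)) = e (m, n + 1) := fun m n => by
    simpa using hW (m, n)
  have w2 : ∀ m n : ℤ, (star W) (e (m, n)) = e (m, n - 1) := fun m n => by
    simpa using hW' (m, n - 1)
  set A : H →L[ℂ] H := U + star U with hA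
  set B : H →L[ℂ] H := W + star W with hB
  have sA : star A = A := by rw [hA, star_add, star_star, add_comm]
  have sB : star B = B := by rw [hB, star_add, star_star, add_comm]
  have a1 : ∀ m n : ℤ, A (e (m, n)) = sg m n • e (m + 1, n) + sg (m - 1) n • e (m - 1, n) :=
    fun m n => by rw [hA, add_apply, u1, u2]
  have b1 : ∀ m n : ℤ, B (e (m, n)) = e (m, n + 1) + e (m, n - 1) :=
    fun m n => by rw [hB, add_apply, w1, w2]
  have sT : star ((1 / 2 : ℂ) • (A + I • B)) = (1 / 2 : ℂ) • (A - I • B) := by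
    rw [star_smul, star_add, star_smul, sA, sB]
    simp [sub_eq_add_neg]
  refine ⟨(1 / 2 : ℂ) • (A + I • B), ?_, ?_, ({0, 1} : Finset ℤ) ×ˢ ({0, 1} : Finset ℤ), ?_⟩
  · rintro ⟨m, n⟩
    simp only [smul_apply, add_apply, a1, b1]
  · rintro ⟨m, n⟩
    rw [sT]
    simp only [smul_apply, sub_apply, a1, b1]
  · rintro ⟨m, n⟩ hp
    have hc : A (B (e (m, n))) = B (A (e (m, n))) := by
      simp only [a1, b1, map_add, map_smul]
      have k1 : sg m (n + 1) = sg m n ∧ sg m (n - 1) = sg m n ∧ sg (m - 1) (n + 1) = sg (m - 1) n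
          ∧ sg (m - 1) (n - 1) = sg (m - 1) n := by
        simp only [mem_product, mem_insert, mem_singleton] at hp
        unfold sg
        refine ⟨?_, ?_, ?_, ?_⟩ <;> apply if_congr _ rfl rfl <;> omega
      rw [k1.1, k1.2.1, k1.2.2.1, k1.2.2.2]
      module
    rw [sT]
    simp only [sub_apply, mul_apply_eq_comp, smul_apply, add_apply, map_smul, map_add, map_sub,
      hc]
    module

theorem not_dilatable (e : HilbertBasis (ℤ × ℤ) ℂ H) (T : H →L[ℂ] H)
    (hT : ∀ p : ℤ × ℤ, T (e p) = (1 / 2 : ℂ) •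
        ((sg p.1 p.2 • e (p.1 + 1, p.2) + sg (p.1 - 1) p.2 • e (p.1 - 1, p.2))
          + I • (e (p.1, p.2 + 1) + e (p.1, p.2 - 1))))
    (hT' : ∀ p : ℤ × ℤ, (star T) (e p) = (1 / 2 : ℂ) •
        ((sg p.1 p.2 • e (p.1 + 1, p.2) + sg (p.1 - 1) p.2 • e (p.1 - 1, p.2))
          - I • (e (p.1, p.2 + 1) + e (p.1, p.2 - 1))))
    (N11 N12 N21 N22 : H →L[ℂ] H)
    (h1 : star N11 * N11 + star N21 * N21 = N11 * star N11 + N12 * star N12)
    (h2 : star N11 * N12 + star N21 * N22 = N11 * star N21 + N12 * star N22)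
    (h3 : star N12 * N11 + star N22 * N21 = N21 * star N11 + N22 * star N12)
    (h4 : star N12 * N12 + star N22 * N22 = N21 * star N21 + N22 * star N22)
    (k1 : Summable (fun p => ‖(T - N11) (e p)‖ ^ 2))
    (k2 : Summable (fun p => ‖(star (T - N11)) (e p)‖ ^ 2))
    (k3 : Summable (fun p => ‖N21 (e p)‖ ^ 2))
    (k4 : Summable (fun p => ‖(star N12) (e p)‖ ^ 2)) : False := by
  have hN : IsStarNormal (blk N11 N12 N21 N22) := by
    refine ⟨?_⟩
    rw [Commute, SemiconjBy, star_blk, blk_mul, blk_mul, h1, h2, h3, h4]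
  set V : H →L[ℂ] WithLp 2 (H × H) :=
    ((WithLp.prodContinuousLinearEquiv 2 ℂ H H).symm : (H × H) →L[ℂ] WithLp 2 (H × H)).comp
      (ContinuousLinearMap.inl ℂ H H) with hV
  have hV' : ∀ x, V x = WithLp.toLp 2 (x, 0) := fun x => rfl
  refine no_normal _ hN (fun p => V (e p)) ?_ ?_ ?_
  · classical
    rw [orthonormal_iff_ite]
    intro i j
    rw [hV', hV', WithLp.prod_inner_apply, ← orthonormal_iff_ite.1 e.orthonormal]
    simp
  · refine (k1.add k3).congr (fun p => ?_)
    simp only [← map_smul, ← map_add]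
    rw [← hT, hV', hV', blk_apply, WithLp.prod_norm_sq_eq_of_L2]
    simp [norm_sub_rev]
  · refine (k2.add k4).congr (fun p => ?_)
    simp only [← map_smul, ← map_add, ← map_sub]
    rw [← hT', star_blk, hV', hV', blk_apply, WithLp.prod_norm_sq_eq_of_L2]
    simp [norm_sub_rev]

end H894Z.AB
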